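import Mathlib

set_option autoImplicit false

open Filter Topology Set

namespace Pool.Agent.H.MP_08c933_an

def nn : ℕ → ℕ
  | 0 => 0
  | k + 1 => 2 * nn k + 12 * (k + 1)

theorem nn_lt {k l : ℕ} (h : k < l) : 2 * nn k + 12 * l ≤ nn l := by
  induction l, h using Nat.le_induction with
  | base => simp [nn]
  | succ l _ ih => rw [nn]; omega

/-- the class of an index -/
def cl (k : ℕ) : ℕ := k.unpair.1

theorem cl_le (k : ℕ) : cl k ≤ k := Nat.unpair_left_le k

def In (j : ℤ) (q : ℕ × ℕ) : Prop := q.1 < q.2 ∧ |j - (nn q.2 - nn q.1)| ≤ 5 * (cl q.1 : ℤ)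

theorem In_uniq {i j : ℤ} {q r : ℕ × ℕ} (hq : In i q) (hr : In j r) (h : |i - j| ≤ 1) : q = r := by
  obtain ⟨k, l⟩ := q
  obtain ⟨k', l'⟩ := r
  obtain ⟨h1, h2⟩ := hq
  obtain ⟨h3, h4⟩ := hr
  simp only [abs_le] at h h1 h2 h3 h4
  have h5 := cl_le k
  have h6 := cl_le k'
  have h7 := nn_lt h1
  have h8 := nn_lt h3
  rcases lt_trichotomy l l' with hl | rfl | hl
  · have := nn_lt hl; omega
  · rcases lt_trichotomy k k' with hk | rfl | hk
    · have := nn_lt hk; omega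
    · rfl
    · have := nn_lt hk; omega
  · have := nn_lt hl; omega

open Classical in
noncomputable def kk (j : ℤ) : ℕ := if h : ∃ q, In j q then h.choose.1 else 0

open Classical in
noncomputable def rho (j : ℤ) : ℤ :=
  if h : ∃ q, In j q then 5 * (cl h.choose.1 : ℤ) - |j - (nn h.choose.2 - nn h.choose.1)| else 0

theorem of_In {j : ℤ} {q : ℕ × ℕ} (h : In j q) :
    kk j = q.1 ∧ rho j = 5 * (cl q.1 : ℤ) - |j - (nn q.2 - nn q.1)| := by
  have h1 : ∃ q, In j q := ⟨q, h⟩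
  have h2 : h1.choose = q := In_uniq h1.choose_spec h (by simp)
  simp only [kk, rho, dif_pos h1, h2, and_self]

theorem of_not {j : ℤ} (h : ¬ ∃ q, In j q) : rho j = 0 := by simp only [rho, dif_neg h]

theorem rho_nonneg (j : ℤ) : 0 ≤ rho j := by
  by_cases h : ∃ q, In j q
  · obtain ⟨q, h⟩ := h
    rw [(of_In h).2]; linarith [h.2]
  · rw [of_not h]

theorem rho_le_cl (j : ℤ) : rho j ≤ 5 * (cl (kk j) : ℤ) := by
  by_cases h : ∃ q, In j q
  · obtain ⟨q, h⟩ := h
    rw [(of_In h).2, (of_In h).1]; linarith [abs_nonneg (j - (nn q.2 - nn q.1))]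
  · rw [of_not h]; positivity

theorem rho_le_max (j : ℤ) : rho j ≤ max j 0 := by
  by_cases h : ∃ q, In j q
  · obtain ⟨q, h⟩ := h
    have h1 := nn_lt h.1
    have h2 := cl_le q.1
    have h3 := h.1
    rw [(of_In h).2]
    have := neg_abs_le (j - (nn q.2 - nn q.1))
    have := le_max_left j 0
    omega
  · rw [of_not h]; exact le_max_right _ _

theorem rho_neg {j : ℤ} (h : j ≤ 0) : rho j = 0 :=
  le_antisymm ((rho_le_max j).trans (max_eq_right h).le) (rho_nonneg j)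

theorem rho_step {i j : ℤ} (h : |i - j| ≤ 1) : rho i ≤ rho j + 1 := by
  by_cases hi : ∃ q, In i q
  · obtain ⟨q, hi⟩ := hi
    have h1 := abs_sub_abs_le_abs_sub (j - (nn q.2 - nn q.1)) (i - (nn q.2 - nn q.1))
    rw [sub_sub_sub_cancel_right, abs_sub_comm j i] at h1
    by_cases hj : In j q
    · rw [(of_In hi).2, (of_In hj).2]; linarith
    · have h2 : ¬ |j - (nn q.2 - nn q.1)| ≤ 5 * (cl q.1 : ℤ) := fun h => hj ⟨hi.1, h⟩
      rw [(of_In hi).2]; linarith [rho_nonneg j]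
  · rw [of_not hi]; linarith [rho_nonneg j]

theorem kk_step {i j : ℤ} (h : |i - j| ≤ 1) : kk i = kk j ∨ rho i = 0 ∨ rho j = 0 := by
  by_cases hi : ∃ q, In i q
  · by_cases hj : ∃ q, In j q
    · obtain ⟨q, hi⟩ := hi
      obtain ⟨r, hj⟩ := hj
      left; rw [(of_In hi).1, (of_In hj).1, In_uniq hi hj h]
    · exact .inr (.inr (of_not hj))
  · exact .inr (.inl (of_not hi))

theorem win {k l : ℕ} (h : k < l) {i : ℤ} (hi : |i| ≤ cl k) :
    kk (i + (nn l - nn k)) = k ∧ 4 * (cl k : ℤ) ≤ rho (i + (nn l - nn k)) := by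
  have h1 : In (i + (nn l - nn k)) (k, l) := ⟨h, by simp only [add_sub_cancel_right]; omega⟩
  refine ⟨(of_In h1).1, ?_⟩
  rw [(of_In h1).2]; simp only [add_sub_cancel_right]; omega

noncomputable def dd (k : ℕ) : ℝ := Real.exp (-cl k)

theorem dd_pos (k : ℕ) : 0 < dd k := Real.exp_pos _

theorem dd_le (k : ℕ) : dd k ≤ 1 := Real.exp_le_one_iff.2 (by simp)

/-- the fibre maps -/
noncomputable def G (s r : ℝ) (k : ℕ) (w : ℕ → ℂ) (t : ℕ) : ℂ :=
  if t = 0 then (Real.exp s : ℝ) * w 0 + (dd k * (Real.exp s - Real.exp r) : ℝ) * w (k + 1)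
  else (Real.exp r : ℝ) * w t

theorem G_G (s r s' r' : ℝ) (k : ℕ) (w : ℕ → ℂ) :
    G s r k (G s' r' k w) = G (s + s') (r + r') k w := by
  funext t
  simp only [G, Real.exp_add, if_true, Nat.add_one_ne_zero, if_false]
  split_ifs <;> push_cast <;> ring

theorem G_same (s : ℝ) (k : ℕ) (w : ℕ → ℂ) : G s s k w = fun t => (Real.exp s : ℝ) * w t := by
  funext t
  simp only [G]
  split_ifs with h
  · simp [h]
  · rfl

theorem G_zero (k : ℕ) (w : ℕ → ℂ) : G 0 0 k w = w := by rw [G_same]; simp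

theorem G_zero' (s r : ℝ) (k : ℕ) : G s r k 0 = 0 := by funext t; simp [G]

theorem G_add (s r : ℝ) (k : ℕ) (v w : ℕ → ℂ) (t : ℕ) :
    G s r k (fun t => v t + w t) t = G s r k v t + G s r k w t := by
  simp only [G]; split_ifs <;> ring

theorem G_smul (s r : ℝ) (k : ℕ) (c : ℂ) (w : ℕ → ℂ) (t : ℕ) :
    G s r k (fun t => c * w t) t = c * G s r k w t := by
  simp only [G]; split_ifs <;> ring

theorem G_le' {s r b : ℝ} (hs : s ≤ b) (hr : r ≤ b) (k : ℕ) (w : ℕ → ℂ) (t : ℕ) :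
    ‖G s r k w t‖ ≤ Real.exp b * (‖w t‖ + ‖w (if t = 0 then k + 1 else t)‖) := by
  have h1 := Real.exp_le_exp.2 hs
  have h2 := Real.exp_le_exp.2 hr
  have h3 := Real.exp_pos s
  have h4 := Real.exp_pos r
  simp only [G]
  split_ifs with h
  · subst h
    refine (norm_add_le _ _).trans ?_
    rw [norm_mul, norm_mul, Complex.norm_real, Complex.norm_real, Real.norm_of_nonneg h3.le,
      mul_add, Real.norm_eq_abs, abs_mul, abs_of_pos (dd_pos k)]
    have h5 : |Real.exp s - Real.exp r| ≤ Real.exp b := by rw [abs_le]; constructor <;> linarith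
    have h6 : dd k * |Real.exp s - Real.exp r| ≤ 1 * Real.exp b :=
      mul_le_mul (dd_le k) h5 (abs_nonneg _) zero_le_one
    gcongr
    linarith
  · rw [norm_mul, Complex.norm_real, Real.norm_of_nonneg h4.le]
    have := norm_nonneg (w t)
    nlinarith

theorem G_le {s r b M : ℝ} (hs : s ≤ b) (hr : r ≤ b) (k : ℕ) {w : ℕ → ℂ} (hw : ∀ t, ‖w t‖ ≤ M)
    (t : ℕ) : ‖G s r k w t‖ ≤ 2 * Real.exp b * M := by
  refine (G_le' hs hr k w t).trans ?_
  have := hw t
  have := hw (if t = 0 then k + 1 else t)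
  have := Real.exp_pos b
  nlinarith

theorem G_ker (s r : ℝ) (k : ℕ) {w : ℕ → ℂ} (hw : (dd k : ℂ) * w (k + 1) = -w 0) (t : ℕ) :
    G s r k w t = (Real.exp r : ℝ) * w t := by
  simp only [G]
  split_ifs with h
  · subst h
    push_cast
    linear_combination (Complex.exp s - Complex.exp r) * hw
  · rfl

noncomputable def sg (j : ℤ) : ℝ := min (j : ℝ) 0

/-- the gauge -/
noncomputable def A (j : ℤ) : (ℕ → ℂ) → ℕ → ℂ := G (sg j) (sg j - rho j) (kk j)

noncomputable def B (j : ℤ) : (ℕ → ℂ) → ℕ → ℂ := G (-sg j) (rho j - sg j) (kk j)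

theorem A_B (j : ℤ) (w : ℕ → ℂ) : A j (B j w) = w := by
  rw [A, B, G_G]; simpa using G_zero _ w

theorem B_A (j : ℤ) (w : ℕ → ℂ) : B j (A j w) = w := by
  rw [A, B, G_G]; simpa using G_zero _ w

theorem step (j : ℤ) : ∃ s r k, s ≤ 2 ∧ r ≤ 2 ∧ ∀ w, A j (B (j - 1) w) = G s r k w := by
  have h1 : sg j - sg (j - 1) ≤ 1 := by
    simp only [sg]; push_cast
    rcases le_total (j : ℝ) 0 with h | h
    · rw [min_eq_left h, min_eq_left (by linarith)]; linarith
    · rw [min_eq_right h]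
      have : (-1 : ℝ) ≤ min ((j : ℝ) - 1) 0 := le_min (by linarith) (by norm_num)
      linarith
  have h2 : (rho (j - 1) : ℝ) ≤ rho j + 1 := by exact_mod_cast rho_step (by simp)
  have h3 : ∃ k, (∀ w, A j w = G (sg j) (sg j - rho j) k w) ∧
      ∀ w, B (j - 1) w = G (-sg (j - 1)) (rho (j - 1) - sg (j - 1)) k w := by
    rcases kk_step (i := j) (j := j - 1) (by simp) with h | h | h
    · exact ⟨kk j, fun _ => rfl, fun _ => by rw [B, h]⟩
    · exact ⟨kk (j - 1), fun w => by simp [A, h, G_same], fun _ => rfl⟩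
    · exact ⟨kk j, fun _ => rfl, fun w => by simp [B, h, G_same]⟩
  obtain ⟨k, h3, h4⟩ := h3
  refine ⟨_, _, k, ?_, ?_, fun w => by rw [h3, h4, G_G]⟩ <;> linarith

theorem A_le (j : ℤ) {M : ℝ} {w : ℕ → ℂ} (hw : ∀ t, ‖w t‖ ≤ M) (t : ℕ) :
    ‖A j w t‖ ≤ 2 * Real.exp (sg j) * M :=
  G_le le_rfl (by have : (0 : ℝ) ≤ rho j := by exact_mod_cast rho_nonneg j
                  linarith) _ hw t

theorem B_le (j : ℤ) {M : ℝ} {w : ℕ → ℂ} (hw : ∀ t, ‖w t‖ ≤ M) (t : ℕ) :
    ‖B j w t‖ ≤ 2 * Real.exp |(j : ℝ)| * M := by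
  have h1 : (rho j : ℝ) ≤ max (j : ℝ) 0 := by exact_mod_cast rho_le_max j
  have h0 : (0 : ℝ) ≤ rho j := by exact_mod_cast rho_nonneg j
  have h2 : (rho j : ℝ) - sg j ≤ |(j : ℝ)| := by
    rw [sg]
    rcases le_total (j : ℝ) 0 with h | h
    · rw [max_eq_right h] at h1
      rw [min_eq_left h, abs_of_nonpos h]; linarith
    · rw [max_eq_left h] at h1
      rw [min_eq_right h, abs_of_nonneg h]; linarith
  exact G_le (by linarith) h2 _ hw t

end Pool.Agent.H.MP_08c933_an
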