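import Pool.Agent.H.MP_08c933_an.A

set_option autoImplicit false

open Filter Topology Set ZeroAtInfty

namespace Pool.Agent.H.MP_08c933_an

abbrev X := C₀(ℤ × ℕ, ℂ)

/-- elements from functions -/
def mk (f : ℤ × ℕ → ℂ) (h : Tendsto f cofinite (𝓝 0)) : X :=
  ⟨⟨f, continuous_of_discreteTopology⟩, by rwa [cocompact_eq_cofinite]⟩

@[simp] theorem mk_apply (f : ℤ × ℕ → ℂ) (h : Tendsto f cofinite (𝓝 0)) (p : ℤ × ℕ) :
    mk f h p = f p := rfl

theorem tz (f : X) : Tendsto f cofinite (𝓝 0) := by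
  have := f.zero_at_infty'
  rwa [cocompact_eq_cofinite] at this

theorem ap_le (f : X) (p : ℤ × ℕ) : ‖f p‖ ≤ ‖f‖ := f.toBCF.norm_coe_le_norm p

theorem nm_le {f : X} {M : ℝ} (h : ∀ p, ‖f p‖ ≤ M) : ‖f‖ ≤ M :=
  (BoundedContinuousFunction.norm_le ((norm_nonneg _).trans (h 0))).2 h

noncomputable def ev (p : ℤ × ℕ) : X →L[ℂ] ℂ :=
  LinearMap.mkContinuous ⟨⟨fun f => f p, fun _ _ => rfl⟩, fun _ _ => rfl⟩ 1 fun f => by
    simpa using ap_le f p

noncomputable def dl (p : ℤ × ℕ) : X :=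
  mk (Pi.single p 1) (tendsto_const_nhds.congr' (by
    filter_upwards [eventually_cofinite_ne p] with q hq
    simp [hq]))

theorem sum_ap (s : Finset (ℤ × ℕ)) (c : ℤ × ℕ → ℂ) (q : ℤ × ℕ) :
    (∑ p ∈ s, c p • dl p) q = if q ∈ s then c q else 0 := by
  have : (∑ p ∈ s, c p • dl p) q = ev q (∑ p ∈ s, c p • dl p) := rfl
  rw [this, map_sum]
  have h : ∀ p, ev q (c p • dl p) = if q = p then c q else 0 := fun p => by
    change c p • (Pi.single p (1 : ℂ) : ℤ × ℕ → ℂ) q = _
    rw [Pi.single_apply]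
    split_ifs with h <;> simp [h]
  simp [h]

theorem hasSum (f : X) : HasSum (fun p => f p • dl p) f := by
  refine Metric.tendsto_atTop.2 fun ε hε => ?_
  have h := (Metric.tendsto_nhds.1 (tz f)) (ε / 2) (by linarith)
  refine ⟨(eventually_cofinite.1 h).toFinset, fun s hs => ?_⟩
  rw [dist_eq_norm]
  refine lt_of_le_of_lt (nm_le fun q => ?_) (half_lt_self hε)
  rw [ZeroAtInftyContinuousMap.sub_apply, sum_ap]
  split_ifs with hq
  · simp; linarith
  · have : q ∉ (eventually_cofinite.1 h).toFinset := fun h' => hq (hs h')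
    simp only [Finite.mem_toFinset, mem_ofPred_eq, not_not, dist_zero_right] at this
    simpa using this.le

theorem summ (φ : X →L[ℂ] ℂ) : Summable fun p => ‖φ (dl p)‖ := by
  have : ∀ p, ∃ ε : ℂ, ‖ε‖ = 1 ∧ ε * φ (dl p) = ‖φ (dl p)‖ := fun l => by
    obtain ⟨c, h1, h2⟩ := Complex.exists_norm_eq_mul_self (φ (dl l))
    exact ⟨c, h1, h2.symm⟩
  choose ε h1 h2 using this
  refine summable_of_sum_le (c := ‖φ‖ * 1) (fun l => norm_nonneg _) fun s => ?_
  have h3 : ‖∑ l ∈ s, ε l • dl l‖ ≤ 1 := nm_le fun q => by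
    rw [sum_ap]; split_ifs <;> simp [h1]
  have h4 : φ (∑ l ∈ s, ε l • dl l) = (∑ l ∈ s, ‖φ (dl l)‖ : ℝ) := by simp [h2]
  have h5 := φ.le_opNorm_of_le h3
  rw [h4, Complex.norm_real] at h5
  exact (le_abs_self _).trans h5

theorem weak {u : ℕ → X} {y : X} {M : ℝ} (hb : ∀ i, ‖u i‖ ≤ M)
    (hp : ∀ p, Tendsto (fun i => u i p) atTop (𝓝 (y p))) (φ : X →L[ℂ] ℂ) :
    Tendsto (fun i => φ (u i)) atTop (𝓝 (φ y)) := by
  have h : ∀ f : X, φ f = ∑' p, f p * φ (dl p) := fun f => by
    simpa using (φ.hasSum (hasSum f)).tsum_eq.symm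
  simp only [fun i => h (u i), h y]
  refine tendsto_tsum_of_dominated_convergence ((summ φ).mul_left M)
    (fun p => (hp p).mul_const _) (.of_forall fun i p => ?_)
  rw [norm_mul]
  exact mul_le_mul_of_nonneg_right ((ap_le _ p).trans (hb i)) (norm_nonneg _)

theorem bdd {u : ℕ → X} {y : X} (h : ∀ φ : X →L[ℂ] ℂ, Tendsto (fun i => φ (u i)) atTop (𝓝 (φ y))) :
    ∃ R, ∀ i, ‖u i‖ ≤ R := by
  obtain ⟨R, hR⟩ := banach_steinhaus (g := fun i => NormedSpace.inclusionInDoubleDual ℂ X (u i))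
    fun φ => by
      obtain ⟨M, hM⟩ := (h φ).norm.bddAbove_range
      exact ⟨M, fun i => hM ⟨i, rfl⟩⟩
  refine ⟨R, fun i => nm_le fun p => ?_⟩
  have h1 : ‖ev p‖ ≤ 1 := LinearMap.mkContinuous_norm_le _ zero_le_one _
  have h2 := (NormedSpace.inclusionInDoubleDual ℂ X (u i)).le_of_opNorm_le_of_le (hR i) h1
  rw [mul_one] at h2
  exact h2

instance : TopologicalSpace.SeparableSpace X := by
  rw [← TopologicalSpace.isSeparable_univ_iff]
  refine (((countable_range dl).isSeparable.span (R := ℂ)).closure).mono fun f _ => ?_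
  refine mem_closure_of_tendsto (hasSum f) (.of_forall fun s => ?_)
  exact Submodule.sum_mem _ fun p _ => Submodule.smul_mem _ _ (Submodule.subset_span ⟨p, rfl⟩)

/-- rows -/
def row (f : ℤ × ℕ → ℂ) (j : ℤ) (t : ℕ) : ℂ := f (j, t)

theorem tz_G (f : ℤ × ℕ → ℂ) (hf : Tendsto f cofinite (𝓝 0)) (m : ℤ) (s r : ℤ → ℝ) (k : ℤ → ℕ)
    (b : ℝ) (hs : ∀ j, s j ≤ b) (hr : ∀ j, r j ≤ b) :
    Tendsto (fun p : ℤ × ℕ => G (s p.1) (r p.1) (k p.1) (row f (p.1 - m)) p.2) cofinite (𝓝 0) := by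
  have h1 : Tendsto (fun p : ℤ × ℕ => (p.1 - m, p.2)) cofinite cofinite :=
    Function.Injective.tendsto_cofinite fun p q h => by
      simp only [Prod.mk.injEq, sub_left_inj] at h; exact Prod.ext h.1 h.2
  have h2 : Tendsto (fun p : ℤ × ℕ => (p.1 - m, if p.2 = 0 then k p.1 + 1 else p.2))
      cofinite cofinite := by
    refine Tendsto.cofinite_of_finite_preimage_singleton fun q => ?_
    refine (Set.toFinite {(q.1 + m, 0), (q.1 + m, q.2)}).subset fun p hp => ?_
    simp only [mem_preimage, mem_singleton_iff, Prod.ext_iff] at hp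
    obtain ⟨h3, h4⟩ := hp
    simp only [mem_insert_iff, mem_singleton_iff, Prod.ext_iff]
    split_ifs at h4 with h
    · left; exact ⟨by omega, h⟩
    · right; exact ⟨by omega, h4⟩
  refine squeeze_zero_norm (fun p => G_le' (hs _) (hr _) _ _ _) ?_
  have := (((hf.comp h1).norm).add ((hf.comp h2).norm)).const_mul (Real.exp b)
  rw [norm_zero, add_zero, mul_zero] at this
  exact this

noncomputable def T : X →L[ℂ] X :=
  LinearMap.mkContinuous
    { toFun := fun f => mk (fun p => A p.1 (B (p.1 - 1) (row f (p.1 - 1))) p.2) (by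
        choose s r k h1 h2 h3 using step
        simp only [h3]
        exact tz_G f (tz f) 1 s r k 2 h1 h2)
      map_add' := fun f g => by
        ext p
        obtain ⟨s, r, k, -, -, h⟩ := step p.1
        simp only [mk_apply, ZeroAtInftyContinuousMap.add_apply, h]
        exact G_add s r k _ _ _
      map_smul' := fun c f => by
        ext p
        obtain ⟨s, r, k, -, -, h⟩ := step p.1
        simp only [mk_apply, ZeroAtInftyContinuousMap.smul_apply, h]
        exact G_smul s r k c _ _ } (2 * Real.exp 2) fun f => nm_le fun p => by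
    obtain ⟨s, r, k, h1, h2, h⟩ := step p.1
    simp only [LinearMap.coe_mk, AddHom.coe_mk, mk_apply, h]
    exact G_le h1 h2 k (fun t => ap_le f _) _

theorem T_row (f : X) (j : ℤ) : row (T f) j = A j (B (j - 1) (row f (j - 1))) := rfl

theorem T_iter (f : X) (n : ℕ) (j : ℤ) :
    row (T^[n] f) j = A j (B (j - n) (row f (j - n))) := by
  induction n generalizing j with
  | zero => simp [A_B]
  | succ n ih =>
    rw [Function.iterate_succ_apply', T_row, ih, B_A,
      show j - 1 - (n : ℤ) = j - (n + 1 : ℕ) by push_cast; ring]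

/-- target -/
noncomputable def tg : X :=
  mk (fun p => if p.2 = 0 then (Real.exp (-|(p.1 : ℝ)| / 10) : ℝ) else 0) (by
    refine Metric.tendsto_nhds.2 fun ε hε => ?_
    obtain ⟨N, hN⟩ := exists_nat_gt (10 / ε)
    refine eventually_cofinite.2 (((finite_Icc (-N : ℤ) N).prod (finite_singleton 0)).subset
      fun p hp => ?_)
    simp only [dist_zero_right, not_lt, mem_ofPred_eq] at hp
    split_ifs at hp with h
    · refine ⟨?_, h⟩
      rw [mem_Icc, ← abs_le]
      by_contra hc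
      have h1 : (N : ℝ) < |(p.1 : ℝ)| := by exact_mod_cast not_le.1 hc
      rw [Complex.norm_real, Real.norm_of_nonneg (Real.exp_pos _).le, neg_div, Real.exp_neg,
        le_inv_comm₀ hε (Real.exp_pos _)] at hp
      have h2 := Real.add_one_le_exp (|(p.1 : ℝ)| / 10)
      rw [div_eq_mul_inv] at hN
      linarith
    · simp at hp; linarith)

theorem obs {z : X} {R : ℝ} {J m : ℕ} (hm : J ≤ m) (h1 : ‖z‖ ≤ R) (h2 : ‖T^[m] z‖ ≤ R) :
    ‖z (-J, 0)‖ ≤ 2 * R * Real.exp (-J / 5) := by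
  have hR := (norm_nonneg _).trans h1
  set j : ℤ := m - J with hj
  have h3 := T_iter z m j
  have h4 : j - m = -J := by omega
  have h5 : sg j = 0 := min_eq_right (by exact_mod_cast (by omega : 0 ≤ j))
  have h6 : sg (-J) = -J := by rw [sg, min_eq_left] <;> simp
  rw [h4, B, rho_neg (by omega), h6, A, h5] at h3
  simp only [Int.cast_zero, zero_sub, neg_neg, G_same] at h3
  have h7 := (ap_le _ (j, 0)).trans h2
  have h8 := (ap_le _ (j, kk j + 1)).trans h2
  have h9 := (ap_le _ (-J, kk j + 1)).trans h1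
  change ‖row _ j _‖ ≤ R at h7 h8
  rw [h3] at h7 h8
  simp only [G, if_true, Nat.add_one_ne_zero, if_false, row] at h7 h8
  have h10 : (rho j : ℝ) ≤ 5 * cl (kk j) := by exact_mod_cast rho_le_cl j
  have h11 : (0 : ℝ) ≤ rho j := by exact_mod_cast rho_nonneg j
  generalize z (-J, 0) = u at *
  generalize z (-J, kk j + 1) = v at *
  have h12 : dd (kk j) * ‖v‖ ≤ R * Real.exp (-J / 5) := by
    rcases le_total ((J : ℝ) / 5) (cl (kk j)) with h | h
    · rw [mul_comm]
      exact mul_le_mul h9 (Real.exp_le_exp.2 (by linarith)) (dd_pos _).le hR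
    · rw [← mul_assoc, norm_mul, ← Complex.ofReal_mul, Complex.norm_real, ← Real.exp_add,
        Real.norm_of_nonneg (Real.exp_pos _).le] at h8
      have h13 : dd (kk j) ≤ Real.exp (-J / 5) * Real.exp (-rho j + J) := by
        rw [← Real.exp_add]; exact Real.exp_le_exp.2 (by linarith)
      have := Real.exp_pos (-J / 5)
      have := norm_nonneg v
      nlinarith
  have h13 : u = (Real.exp (-J) : ℝ) * ((Real.exp 0 : ℝ) * ((Real.exp J : ℝ) * u) +
      (dd (kk j) * (Real.exp 0 - Real.exp (-rho j)) : ℝ) * ((Real.exp J : ℝ) * v)) -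
      (dd (kk j) * (1 - Real.exp (-rho j)) : ℝ) * v := by
    have : ((Real.exp (-J) : ℝ) : ℂ) * (Real.exp J : ℝ) = 1 := by
      rw [← Complex.ofReal_mul, ← Real.exp_add]; simp
    simp only [Real.exp_zero, Complex.ofReal_one, one_mul]
    linear_combination (-u - (dd (kk j) * (1 - Real.exp (-rho j)) : ℝ) * v) * this
  rw [h13]
  refine (norm_sub_le _ _).trans ?_
  have h14 : Real.exp (-rho j) ≤ 1 := Real.exp_le_one_iff.2 (by linarith)
  have h15 := Real.exp_pos (-rho j)
  have h16 := dd_pos (kk j)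
  rw [norm_mul, norm_mul _ v, Complex.norm_real, Complex.norm_real,
    Real.norm_of_nonneg (Real.exp_pos _).le, Real.norm_of_nonneg (by nlinarith)]
  have h17 : Real.exp (-J) ≤ Real.exp (-J / 5) :=
    Real.exp_le_exp.2 (by have : (0 : ℝ) ≤ J := J.cast_nonneg
                          linarith)
  have h18 := mul_le_mul h17 h7 (norm_nonneg _) (Real.exp_pos _).le
  have := mul_pos h16 h15
  have := norm_nonneg v
  nlinarith

theorem no1 (x : X) : ∃ y : X, ∀ u : ℕ → X, (∀ i, u i ∈ range fun n : ℕ => T^[n] x) →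
    ¬ ∀ φ : X →L[ℂ] ℂ, Tendsto (fun i => φ (u i)) atTop (𝓝 (φ y)) := by
  have h0 : tg (0, 0) = 1 := by simp [tg]
  obtain ⟨c, hc1, hc⟩ : ∃ c : ℝ, 1 < c ∧ c ∉ range fun n : ℕ => (T^[n] x (0, 0)).re := by
    obtain ⟨c, h1, h2⟩ := ((countable_range fun n : ℕ => (T^[n] x (0, 0)).re).dense_compl
      ℝ).exists_mem_open isOpen_Ioi (nonempty_Ioi (a := (1 : ℝ)))
    exact ⟨c, h2, h1⟩
  refine ⟨(c : ℂ) • tg, fun u hu h => ?_⟩
  choose n hn using hu
  obtain ⟨R, hR⟩ := bdd h
  have hp : ∀ p, Tendsto (fun i => u i p) atTop (𝓝 (c * tg p)) := fun p => h (ev p)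
  have h1 : ∀ N, ∀ᶠ i in atTop, n i ≠ N := fun N => by
    by_contra h2
    rw [not_eventually] at h2
    have h3 := tendsto_nhds_unique_of_frequently_eq (hp (0, 0))
      (tendsto_const_nhds (x := T^[N] x (0, 0))) (h2.mono fun i hi => by
        simp only [← hn i, not_not.1 hi])
    exact hc ⟨N, by simp only [← h3, h0]; simp⟩
  obtain ⟨J, hJ⟩ := exists_nat_gt (20 * R)
  have h2 : Real.exp (-J / 10) < ‖c * tg (-J, 0)‖ := by
    have : tg (-J, 0) = (Real.exp (-J / 10) : ℝ) := by simp [tg]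
    rw [this, ← Complex.ofReal_mul, Complex.norm_real, Real.norm_of_nonneg (by positivity)]
    exact lt_mul_of_one_lt_left (Real.exp_pos _) hc1
  obtain ⟨i, hi⟩ := ((hp (-J, 0)).norm.eventually (lt_mem_nhds h2)).exists
  obtain ⟨i', hi'⟩ := ((eventually_all_finset (Finset.range (n i + J))).2
    fun N _ => h1 N).exists
  have h3 : n i + J ≤ n i' := by
    by_contra h3
    exact hi' _ (Finset.mem_range.2 (not_le.1 h3)) rfl
  have h4 := obs (z := u i) (J := J) (m := n i' - n i) (by omega) (hR i) (by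
    have := hR i'
    rw [← hn i'] at this
    rw [← hn i]
    simp only at this ⊢
    rwa [← Function.iterate_add_apply, Nat.sub_add_cancel (by omega)])
  have h5 : Real.exp (-J / 10) = Real.exp (J / 10) * Real.exp (-J / 5) := by
    rw [← Real.exp_add]; congr 1; ring
  have h6 := Real.add_one_le_exp ((J : ℝ) / 10)
  have h7 := Real.exp_pos (-(J : ℝ) / 5)
  nlinarith

end Pool.Agent.H.MP_08c933_an
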