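import Pool.Agent.H.MP_08c933_an.B

set_option autoImplicit false

open Filter Topology Set ZeroAtInfty TopologicalSpace

namespace Pool.Agent.H.MP_08c933_an

theorem nn_ge (k : ℕ) : 12 * k ≤ nn k := by cases k <;> simp [nn]

noncomputable def yy (a : ℕ) : X :=
  if ‖denseSeq X (cl a)‖ ≤ Real.exp a then denseSeq X (cl a) else 0

theorem yy_le (a : ℕ) : ‖yy a‖ ≤ Real.exp a := by
  rw [yy]; split_ifs with h
  · exact h
  · simp [(Real.exp_pos _).le]

noncomputable def wk (k : ℕ) (i : ℤ) : ℕ → ℂ :=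
  Function.update (B i (row (yy (cl k)) i)) (k + 1) (-(B i (row (yy (cl k)) i) 0) / dd k)

theorem wk_ker (k : ℕ) (i : ℤ) : (dd k : ℂ) * wk k i (k + 1) = -wk k i 0 := by
  have : (dd k : ℂ) ≠ 0 := by exact_mod_cast (dd_pos k).ne'
  simp only [wk, Function.update_self, Function.update_of_ne (Nat.add_one_ne_zero k).symm]
  field_simp

theorem wk_le (k : ℕ) {i : ℤ} (hi : |i| ≤ cl k) (t : ℕ) :
    ‖wk k i t‖ ≤ 2 * Real.exp (3 * cl k) := by
  have h1 : ∀ t, ‖B i (row (yy (cl k)) i) t‖ ≤ 2 * Real.exp (2 * cl k) := fun t => by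
    refine (B_le i (fun t => (ap_le _ _).trans (yy_le _)) t).trans ?_
    have : |(i : ℝ)| ≤ cl k := by exact_mod_cast hi
    rw [mul_assoc, ← Real.exp_add]
    gcongr; linarith
  have h2 : (0 : ℝ) ≤ cl k := Nat.cast_nonneg _
  rw [wk, Function.update_apply]
  split_ifs
  · rw [norm_div, norm_neg, Complex.norm_real, Real.norm_of_nonneg (dd_pos k).le,
      div_le_iff₀ (dd_pos k), dd, mul_assoc, ← Real.exp_add]
    refine (h1 0).trans ?_
    gcongr; linarith
  · refine (h1 t).trans ?_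
    gcongr; linarith

theorem uq {j : ℤ} {k l : ℕ} (hk : |j + nn k| ≤ cl k) (hl : |j + nn l| ≤ cl l) : k = l := by
  have h1 := cl_le k
  have h2 := cl_le l
  rw [abs_le] at hk hl
  rcases lt_trichotomy k l with h | h | h
  · have := nn_lt h; omega
  · exact h
  · have := nn_lt h; omega

open Classical in
noncomputable def ww (j : ℤ) : ℕ → ℂ :=
  if h : ∃ k, |j + nn k| ≤ cl k then wk h.choose (j + nn h.choose) else 0

theorem ww_eq {j : ℤ} {k : ℕ} (hk : |j + nn k| ≤ cl k) : ww j = wk k (j + nn k) := by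
  have h : ∃ k, |j + nn k| ≤ cl k := ⟨k, hk⟩
  rw [ww, dif_pos h, uq h.choose_spec hk]

theorem ww_not {j : ℤ} (h : ¬ ∃ k, |j + nn k| ≤ cl k) : ww j = 0 := by rw [ww, dif_neg h]

theorem Aw_le (j : ℤ) (k : ℕ) {i : ℤ} (hi : |i| ≤ cl k) (t : ℕ) :
    ‖A j (wk k i) t‖ ≤ 4 * Real.exp (sg j + 3 * cl k) := by
  refine (A_le j (wk_le k hi) t).trans_eq ?_
  rw [Real.exp_add]; ring

theorem G_tz (s r : ℝ) (k : ℕ) {w : ℕ → ℂ} (h : Tendsto w cofinite (𝓝 0)) :
    Tendsto (G s r k w) cofinite (𝓝 0) := by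
  have := h.const_mul ((Real.exp r : ℝ) : ℂ)
  rw [mul_zero] at this
  refine this.congr' ?_
  filter_upwards [eventually_cofinite_ne 0] with t ht
  simp [G, ht]

theorem ww_tz (j : ℤ) : Tendsto (ww j) cofinite (𝓝 0) := by
  by_cases h : ∃ k, |j + nn k| ≤ cl k
  · obtain ⟨k, h⟩ := h
    rw [ww_eq h]
    have h1 : Tendsto (row (yy (cl k)) (j + nn k)) cofinite (𝓝 0) :=
      (tz _).comp (Function.Injective.tendsto_cofinite fun _ _ h => (Prod.ext_iff.1 h).2)
    refine (G_tz (-sg (j + nn k)) (rho (j + nn k) - sg (j + nn k)) (kk (j + nn k)) h1).congr' ?_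
    filter_upwards [eventually_cofinite_ne (k + 1)] with t ht
    simp [wk, ht, B]
  · rw [ww_not h]; exact tendsto_const_nhds

noncomputable def xx : X := mk (fun p => A p.1 (ww p.1) p.2) (by
  refine Metric.tendsto_nhds.2 fun ε hε => ?_
  obtain ⟨N, hN⟩ := exists_nat_gt (8 / ε)
  refine eventually_cofinite.2 (((finite_Icc (-N : ℤ) N).biUnion fun j _ =>
    (eventually_cofinite.1 (Metric.tendsto_nhds.1 (G_tz (sg j) (sg j - rho j) (kk j) (ww_tz j))
      ε hε)).image fun t => (j, t)).subset fun p hp => ?_)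
  simp only [mem_iUnion, mem_image]
  refine ⟨p.1, ?_, p.2, hp, rfl⟩
  simp only [dist_zero_right, not_lt, mem_ofPred_eq] at hp
  rw [mem_Icc, ← abs_le]
  by_contra hc
  by_cases h : ∃ k, |p.1 + nn k| ≤ cl k
  · obtain ⟨k, h⟩ := h
    rw [ww_eq h] at hp
    have h1 := hp.trans (Aw_le _ _ h _)
    have h2 := nn_ge k
    have h3 := cl_le k
    have h4 : 2 * p.1 + 6 * cl k ≤ -N := by
      rw [abs_le] at h hc; omega
    have h5 : 2 * (p.1 : ℝ) + 6 * cl k ≤ -N := by exact_mod_cast h4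
    have h6 : Real.exp (sg p.1 + 3 * cl k) ≤ Real.exp (-(N / 2)) :=
      Real.exp_le_exp.2 (by linarith [min_le_left (p.1 : ℝ) 0, show sg p.1 = min _ _ from rfl])
    have h7 := Real.add_one_le_exp ((N : ℝ) / 2)
    have h8 : Real.exp (-(N / 2)) * Real.exp (N / 2) = 1 := by rw [← Real.exp_add]; simp
    rw [div_lt_iff₀ hε] at hN
    have := Real.exp_pos (-((N : ℝ) / 2))
    have := Real.exp_pos ((N : ℝ) / 2)
    nlinarith
  · rw [ww_not h, A, G_zero'] at hp
    simp at hp; linarith)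

theorem xx_iter (n : ℕ) (p : ℤ × ℕ) : T^[n] xx p = A p.1 (ww (p.1 - n)) p.2 := by
  have := congrFun (T_iter xx n p.1) p.2
  rwa [show row xx (p.1 - n) = A (p.1 - n) (ww (p.1 - n)) from rfl, B_A] at this

theorem xx_le (l : ℕ) : ‖T^[nn l] xx‖ ≤ 4 * Real.exp (3 * cl l) := by
  have h0 : 1 ≤ Real.exp (3 * cl l) := Real.one_le_exp (by positivity)
  refine nm_le fun p => ?_
  rw [xx_iter]
  have h1 : sg p.1 ≤ 0 := min_le_right _ _
  by_cases h : ∃ k, |p.1 - nn l + nn k| ≤ cl k
  · obtain ⟨k, h⟩ := h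
    rw [ww_eq h]
    rcases lt_trichotomy k l with hk | rfl | hk
    · obtain ⟨h2, h3⟩ := win hk h
      rw [show p.1 - nn l + nn k + (nn l - nn k) = p.1 by ring] at h2 h3
      have h4 : 4 * (cl k : ℝ) ≤ rho p.1 := by exact_mod_cast h3
      rw [A, h2, G_ker _ _ _ (wk_ker _ _), norm_mul, Complex.norm_real,
        Real.norm_of_nonneg (Real.exp_pos _).le]
      refine (mul_le_mul_of_nonneg_left (wk_le k h _) (Real.exp_pos _).le).trans ?_
      rw [mul_left_comm, ← Real.exp_add]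
      have h5 : (0 : ℝ) ≤ cl k := Nat.cast_nonneg _
      have : Real.exp (sg p.1 - rho p.1 + 3 * cl k) ≤ 1 := Real.exp_le_one_iff.2 (by linarith)
      linarith
    · refine (Aw_le _ _ h _).trans ?_
      gcongr; linarith
    · refine (Aw_le _ _ h _).trans ?_
      have h2 := nn_lt hk
      have h3 := cl_le k
      have h4 : p.1 + 3 * cl k ≤ 0 := by rw [abs_le] at h; omega
      have h5 : (p.1 : ℝ) + 3 * cl k ≤ 0 := by exact_mod_cast h4
      have : Real.exp (sg p.1 + 3 * cl k) ≤ 1 := Real.exp_le_one_iff.2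
        (by linarith [min_le_left (p.1 : ℝ) 0, show sg p.1 = min _ _ from rfl])
      linarith
  · rw [ww_not h, A, G_zero']
    simp only [Pi.zero_apply, norm_zero]; linarith

noncomputable def tr (a : ℕ) (f : X) : X :=
  mk (fun p => if |p.1| ≤ a then f p else 0) (squeeze_zero_norm (a := fun p => ‖f p‖) (fun p => by
    split_ifs <;> simp) (by simpa using (tz f).norm))

theorem xx_pt (a : ℕ) (p : ℤ × ℕ) :
    ∀ᶠ b in atTop, T^[nn (Nat.pair a b)] xx p = tr a (yy a) p := by
  filter_upwards [eventually_gt_atTop (kk p.1 + p.2 + p.1.natAbs)] with b hb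
  have h1 := Nat.right_le_pair a b
  have h2 : cl (Nat.pair a b) = a := by simp [cl]
  generalize Nat.pair a b = l at h1 h2
  rw [xx_iter, tr, mk_apply]
  split_ifs with h
  · rw [ww_eq (k := l) (by simpa [h2] using h), sub_add_cancel]
    have h3 := congrFun (A_B p.1 (row (yy a) p.1)) p.2
    refine Eq.trans ?_ h3
    simp only [A, G, wk, h2]
    rw [Function.update_of_ne (by omega), Function.update_of_ne (by omega),
      Function.update_of_ne (by omega)]
  · rw [ww_not, A, G_zero']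
    · rfl
    rintro ⟨k, hk⟩
    have h3 := cl_le k
    rw [abs_le] at hk h
    rcases lt_trichotomy k l with hl | rfl | hl
    · have := nn_lt hl
      have := nn_ge k
      omega
    · omega
    · have := nn_lt hl; omega

theorem yes (C : Set X) (hC : ∀ (u : ℕ → X) (y : X), (∀ i, u i ∈ C) →
    (∀ φ : X →L[ℂ] ℂ, Tendsto (fun i => φ (u i)) atTop (𝓝 (φ y))) → y ∈ C)
    (h : (range fun n : ℕ => T^[n] xx) ⊆ C) : C = univ := by
  have h1 : ∀ a, tr a (yy a) ∈ C := fun a =>
    hC (fun b => T^[nn (Nat.pair a b)] xx) _ (fun b => h ⟨_, rfl⟩)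
      (weak (M := 4 * Real.exp (3 * a)) (fun b => by simpa [cl] using xx_le (Nat.pair a b))
        fun p => tendsto_const_nhds.congr' ((xx_pt a p).mono fun _ h => h.symm))
  have h2 : ∀ i, denseSeq X i ∈ C := fun i => by
    refine hC (fun b => tr (Nat.pair i b) (yy (Nat.pair i b))) _ (fun b => h1 _)
      (weak (M := ‖denseSeq X i‖) (fun b => nm_le fun p => ?_) fun p => ?_)
    · simp only [tr, mk_apply, yy, cl, Nat.unpair_pair]
      split_ifs
      · exact ap_le _ _
      all_goals simp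
    · obtain ⟨N, hN⟩ := exists_nat_ge ‖denseSeq X i‖
      refine tendsto_const_nhds.congr' ?_
      filter_upwards [eventually_ge_atTop (N + p.1.natAbs)] with b hb
      have h3 := Nat.right_le_pair i b
      have h4 : (N : ℝ) ≤ Nat.pair i b := by exact_mod_cast (by omega : N ≤ Nat.pair i b)
      simp only [tr, mk_apply, yy, cl, Nat.unpair_pair]
      rw [if_pos (by rw [abs_le]; omega), if_pos (by linarith [Real.add_one_le_exp (Nat.pair i b : ℝ)])]
  refine eq_univ_of_forall fun y => ?_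
  obtain ⟨u, hu, h3⟩ := mem_closure_iff_seq_limit.1 (denseRange_denseSeq X y)
  refine hC u y (fun i => ?_) fun φ => (φ.continuous.tendsto y).comp h3
  obtain ⟨j, hj⟩ := hu i
  exact hj ▸ h2 j

end Pool.Agent.H.MP_08c933_an
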